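import Mathlib
import Pool.Agent.V11306.AsdD
import Pool.Agent.V11306.CMd

/-!
# The congruences of MP_f38b71 (Q2) fail for a CM curve at `p = 2`

We prove the negated form of Q2 with `k = 4`, `p = 2`, `n = l = 1` and the curve
`C : y² = x³ - 42 x² - 7 x` with `j(C) = 255³`, which has complex multiplication by the order of
discriminant `-28`; the model `y² + xy = x³ - x² - 37 x - 78` of discriminant `343` has `a_2 = 1`.
-/

set_option autoImplicit false

namespace Pool.Agent.Results.MP_f38b71_nt.CMFailsAtTwo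

open Finset WeierstrassCurve

/-- The `q`-expansion of the Eisenstein series `E_k = 1 - (2k / B_k) ∑_{n ≥ 1} σ_{k-1}(n) q^n`. -/
noncomputable def eis (k : ℕ) : PowerSeries ℚ :=
  PowerSeries.mk fun n => if n = 0 then 1 else
    -(2 * (k : ℚ) / bernoulli k) * ((ArithmeticFunction.sigma (k - 1) n : ℕ) : ℚ)

/-- The `q`-expansion of the discriminant form `Δ = (E₄³ - E₆²) / 1728`. -/
noncomputable def delta : PowerSeries ℚ :=
  PowerSeries.C (1 / 1728 : ℚ) * (eis 4 ^ 3 - eis 6 ^ 2)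

/-- The `q`-expansion of the modular invariant `j = E₄³ / Δ`, a Laurent series. -/
noncomputable def jq : LaurentSeries ℚ :=
  (HahnSeries.ofPowerSeries ℤ ℚ (eis 4)) ^ 3 / HahnSeries.ofPowerSeries ℤ ℚ delta

/-- The `q`-expansion of `F_{k,C} = E_k / (j - j(C))`, where `j₀ = j(C)`. -/
noncomputable def F (k : ℕ) (j₀ : ℚ) : LaurentSeries ℚ :=
  HahnSeries.ofPowerSeries ℤ ℚ (eis k) / (jq - HahnSeries.C j₀)

/-- `W` is an integral Weierstrass model of the curve `C` with good reduction at `p`. -/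
def IsGoodModel (W : WeierstrassCurve ℤ) (C : WeierstrassCurve ℚ) (p : ℕ) : Prop :=
  (∃ v : WeierstrassCurve.VariableChange ℚ, v • C = W.map (Int.castRingHom ℚ)) ∧
    ¬ ((p : ℤ) ∣ W.Δ)

/-- The number of affine points of `W` modulo `p`. -/
noncomputable def numAffine (W : WeierstrassCurve ℤ) (p : ℕ) : ℕ :=
  Nat.card {P : ZMod p × ZMod p //
    (W.map (Int.castRingHom (ZMod p))).toAffine.Equation P.1 P.2}

/-- `a_p = p + 1 - #C(𝔽_p)`; the points of `C(𝔽_p)` are the affine ones and the point at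
infinity. -/
noncomputable def ap (W : WeierstrassCurve ℤ) (p : ℕ) : ℤ :=
  (p : ℤ) + 1 - ((numAffine W p : ℤ) + 1)

/-- An endomorphism of a Weierstrass curve `W` over a field `K` (algebraically closed in the
application): an endomorphism `f` of the group of points which is zero or is given, at all but
finitely many points, by rational functions in the coordinates:
`f (x, y) = (N₁(x, y) / D₁(x, y), N₂(x, y) / D₂(x, y))`. -/
def IsEndo {K : Type*} [Field K] [DecidableEq K] (W : WeierstrassCurve.Affine K)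
    (f : W.Point →+ W.Point) : Prop :=
  f = 0 ∨ ∃ N₁ D₁ N₂ D₂ : MvPolynomial (Fin 2) K,
    {P : W.Point | ¬ ∃ (x y x' y' : K) (h : W.Nonsingular x y) (h' : W.Nonsingular x' y'),
      P = .some x y h ∧ f P = .some x' y' h' ∧
      MvPolynomial.eval ![x, y] D₁ ≠ 0 ∧ MvPolynomial.eval ![x, y] D₂ ≠ 0 ∧
      x' = MvPolynomial.eval ![x, y] N₁ / MvPolynomial.eval ![x, y] D₁ ∧
      y' = MvPolynomial.eval ![x, y] N₂ / MvPolynomial.eval ![x, y] D₂}.Finite

/-- `ℚ̄` has decidable equality. -/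
noncomputable instance : DecidableEq (AlgebraicClosure ℚ) := Classical.decEq _

/-- The points of `C` over `ℚ̄`. -/
abbrev Pts (C : WeierstrassCurve ℚ) : Type :=
  (C.map (algebraMap ℚ (AlgebraicClosure ℚ))).toAffine.Point

/-- `C` has complex multiplication: some endomorphism of `C` over `ℚ̄` is not the multiplication
by an integer. -/
def HasCM (C : WeierstrassCurve ℚ) : Prop :=
  ∃ f : Pts C →+ Pts C, IsEndo _ f ∧ ∀ n : ℤ, f ≠ n • AddMonoidHom.id (Pts C)

open Pool.Agent.V11306.Asd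

/-- the ring homomorphism `ℤ⟦q⟧ → ℚ⸨q⸩` -/
noncomputable def ψ : PowerSeries ℤ →+* LaurentSeries ℚ :=
  (HahnSeries.ofPowerSeries ℤ ℚ).comp (PowerSeries.map (Int.castRingHom ℚ))

lemma coeff_ψ (f : PowerSeries ℤ) (n : ℕ) :
    (ψ f).coeff (n : ℤ) = ((PowerSeries.coeff n f : ℤ) : ℚ) := by
  rw [ψ, RingHom.comp_apply]
  have h := LaurentSeries.coeff_coe_powerSeries (R := ℚ) (PowerSeries.map (Int.castRingHom ℚ) f) n
  rw [PowerSeries.coeff_map] at h
  exact h

lemma bern4 : bernoulli 4 = -1 / 30 := by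
  rw [bernoulli_eq_bernoulli'_of_ne_one (by norm_num), bernoulli'_four]

lemma bern6 : bernoulli 6 = 1 / 42 := by
  have h5 : bernoulli' 5 = 0 := bernoulli'_eq_zero_of_odd (by decide) (by norm_num)
  rw [bernoulli_eq_bernoulli'_of_ne_one (by norm_num), bernoulli'_def]
  norm_num [Finset.sum_range_succ, bernoulli'_zero, bernoulli'_one, bernoulli'_two,
    bernoulli'_three, bernoulli'_four, h5, Nat.choose]

lemma eis4 : eis 4 = PowerSeries.map (Int.castRingHom ℚ) e4z := by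
  ext n
  rw [eis, PowerSeries.coeff_mk, PowerSeries.coeff_map, coeff_e4z, bern4]
  rcases Nat.eq_zero_or_pos n with h | h
  · subst h; simp
  · rw [if_neg h.ne', if_neg h.ne']
    simp only [zero_add, eq_intCast]
    push_cast
    norm_num

lemma eis6 : eis 6 = PowerSeries.map (Int.castRingHom ℚ) e6z := by
  ext n
  rw [eis, PowerSeries.coeff_mk, PowerSeries.coeff_map, coeff_e6z, bern6]
  rcases Nat.eq_zero_or_pos n with h | h
  · subst h; simp
  · rw [if_neg h.ne', if_neg h.ne']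
    simp only [zero_sub, eq_intCast]
    push_cast
    norm_num

lemma delta_eq : delta = PowerSeries.map (Int.castRingHom ℚ) dz := by
  have h := congrArg (PowerSeries.map (Int.castRingHom ℚ)) dz_spec
  rw [map_sub, map_pow, map_pow, ← eis4, ← eis6, map_mul, map_ofNat] at h
  rw [delta, ← h, ← mul_assoc]
  have h2 : (PowerSeries.C (1 / 1728 : ℚ)) * (1728 : PowerSeries ℚ) = 1 := by
    have : (1728 : PowerSeries ℚ) = PowerSeries.C (1728 : ℚ) := by rw [map_ofNat]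
    rw [this, ← map_mul]
    norm_num
  rw [h2, one_mul]

lemma cm0 (f g : PowerSeries ℤ) : PowerSeries.coeff 0 (f * g) =
    PowerSeries.coeff 0 f * PowerSeries.coeff 0 g := by
  rw [PowerSeries.coeff_mul]; simp

lemma cm1 (f g : PowerSeries ℤ) : PowerSeries.coeff 1 (f * g) =
    PowerSeries.coeff 0 f * PowerSeries.coeff 1 g +
      PowerSeries.coeff 1 f * PowerSeries.coeff 0 g := by
  rw [PowerSeries.coeff_mul, Finset.Nat.antidiagonal_succ]; simp

lemma cm2 (f g : PowerSeries ℤ) : PowerSeries.coeff 2 (f * g) =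
    PowerSeries.coeff 0 f * PowerSeries.coeff 2 g + PowerSeries.coeff 1 f * PowerSeries.coeff 1 g +
      PowerSeries.coeff 2 f * PowerSeries.coeff 0 g := by
  rw [PowerSeries.coeff_mul]
  have : antidiagonal 2 = {(0, 2), (1, 1), (2, 0)} := by decide
  rw [this, Finset.sum_insert (by decide), Finset.sum_insert (by decide), Finset.sum_singleton]
  ring

lemma e4_0 : PowerSeries.coeff 0 e4z = 1 := by rw [coeff_e4z]; simp
lemma e4_1 : PowerSeries.coeff 1 e4z = 240 := by rw [coeff_e4z]; simp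
lemma e4_2 : PowerSeries.coeff 2 e4z = 2160 := by
  rw [coeff_e4z]
  have : ArithmeticFunction.sigma 3 2 = 9 := by decide
  rw [this]; norm_num
lemma e6_0 : PowerSeries.coeff 0 e6z = 1 := by rw [coeff_e6z]; simp
lemma e6_1 : PowerSeries.coeff 1 e6z = -504 := by rw [coeff_e6z]; simp
lemma e6_2 : PowerSeries.coeff 2 e6z = -16632 := by
  rw [coeff_e6z]
  have : ArithmeticFunction.sigma 5 2 = 33 := by decide
  rw [this]; norm_num

lemma c1728 (n : ℕ) (c : ℤ) (f : PowerSeries ℤ) : PowerSeries.coeff n (PowerSeries.C c * f) =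
    c * PowerSeries.coeff n f := PowerSeries.coeff_C_mul _ _ _

lemma dz_spec' : PowerSeries.C (1728 : ℤ) * dz = e4z * (e4z * e4z) - e6z * e6z := by
  have h : (PowerSeries.C (1728 : ℤ)) = (1728 : PowerSeries ℤ) := by rw [map_ofNat]
  rw [h, dz_spec]; ring

lemma dz_0 : PowerSeries.coeff 0 dz = 0 := by
  have h := congrArg (PowerSeries.coeff 0) dz_spec'
  rw [c1728, map_sub] at h
  simp only [cm0, e4_0, e6_0] at h
  omega

lemma dz_1 : PowerSeries.coeff 1 dz = 1 := by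
  have h := congrArg (PowerSeries.coeff 1) dz_spec'
  rw [c1728, map_sub] at h
  simp only [cm0, cm1, e4_0, e6_0, e4_1, e6_1] at h
  omega

lemma dz_2 : PowerSeries.coeff 2 dz = -24 := by
  have h := congrArg (PowerSeries.coeff 2) dz_spec'
  rw [c1728, map_sub] at h
  simp only [cm0, cm1, cm2, e4_0, e6_0, e4_1, e6_1, e4_2, e6_2] at h
  omega

/-- the denominator `E₄³ - 255³ Δ` -/
noncomputable def Dz : PowerSeries ℤ := e4z * (e4z * e4z) - PowerSeries.C 16581375 * dz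

lemma Dz_0 : PowerSeries.coeff 0 Dz = 1 := by
  rw [Dz, map_sub, c1728]
  simp only [cm0, e4_0, dz_0]
  norm_num

lemma Dz_1 : PowerSeries.coeff 1 Dz = 720 - 16581375 := by
  rw [Dz, map_sub, c1728]
  simp only [cm0, cm1, e4_0, e4_1, dz_1]
  norm_num

/-- The integral series with `F · (E₄³ - 255³ Δ) = E₄ Δ`. -/
noncomputable def Fz : PowerSeries ℤ := (e4z * dz) * PowerSeries.invOfUnit Dz 1

lemma Fz_spec : Dz * Fz = e4z * dz := by
  have h := PowerSeries.mul_invOfUnit Dz 1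
    (by rw [← PowerSeries.coeff_zero_eq_constantCoeff_apply, Dz_0]; rfl)
  rw [Fz]
  calc _ = (e4z * dz) * (Dz * PowerSeries.invOfUnit Dz 1) := by ring
    _ = e4z * dz := by rw [h, mul_one]

lemma Fz_0 : PowerSeries.coeff 0 Fz = 0 := by
  have h := congrArg (PowerSeries.coeff 0) Fz_spec
  rw [cm0, cm0, Dz_0, dz_0] at h
  omega

lemma Fz_1 : PowerSeries.coeff 1 Fz = 1 := by
  have h := congrArg (PowerSeries.coeff 1) Fz_spec
  rw [cm1, cm1, Dz_0, dz_0, Fz_0, dz_1, e4_0] at h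
  omega

lemma Fz_2 : PowerSeries.coeff 2 Fz = 16580871 := by
  have h := congrArg (PowerSeries.coeff 2) Fz_spec
  rw [cm2, cm2, Dz_0, dz_0, Fz_0, dz_1, e4_0, e4_1, dz_2, Fz_1, Dz_1] at h
  omega

lemma F_eq : F 4 16581375 = ψ Fz := by
  have hd : HahnSeries.ofPowerSeries ℤ ℚ delta = ψ dz := by
    rw [delta_eq]; rfl
  have h4 : HahnSeries.ofPowerSeries ℤ ℚ (eis 4) = ψ e4z := by
    rw [eis4]; rfl
  have hD : ψ dz ≠ 0 := by
    intro h
    have h1 := coeff_ψ dz 1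
    rw [h, dz_1, HahnSeries.coeff_zero] at h1
    norm_num at h1
  have hA : ψ Dz ≠ 0 := by
    intro h
    have h1 := coeff_ψ Dz 0
    rw [h, HahnSeries.coeff_zero, Dz_0] at h1
    norm_num at h1
  have hs := congrArg ψ Fz_spec
  rw [map_mul, map_mul] at hs
  have hC : (HahnSeries.C (16581375 : ℚ) : LaurentSeries ℚ) = 16581375 := by
    rw [map_ofNat]
  have hC' : ψ (PowerSeries.C 16581375) = 16581375 := by
    have : (PowerSeries.C (16581375 : ℤ)) = (16581375 : PowerSeries ℤ) := by rw [map_ofNat]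
    rw [this, map_ofNat]
  rw [F, jq, hd, h4, hC]
  have hA' : ψ Dz = ψ e4z ^ 3 - 16581375 * ψ dz := by
    rw [Dz, map_sub, map_mul, map_mul, map_mul, hC']
    ring
  rw [hA'] at hs hA
  have e1 : ψ e4z ^ 3 / ψ dz - 16581375 = (ψ e4z ^ 3 - 16581375 * ψ dz) / ψ dz := by
    field_simp
  rw [e1, div_div_eq_mul_div, div_eq_iff hA, ← hs]
  ring

lemma F_1 : (F 4 16581375).coeff 1 = 1 := by
  have h := coeff_ψ Fz 1
  rw [← F_eq, Fz_1] at h
  exact_mod_cast h

lemma F_2 : (F 4 16581375).coeff 2 = 16580871 := by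
  have h := coeff_ψ Fz 2
  rw [← F_eq, Fz_2] at h
  exact_mod_cast h

/-- the model `y² + xy = x³ - x² - 37 x - 78` -/
def W : WeierstrassCurve ℤ := ⟨1, -1, 0, -37, -78⟩

/-- the curve `y² = x³ - 42 x² - 7 x` -/
def C : WeierstrassCurve ℚ := ⟨0, -42, 0, -7, 0⟩

lemma W_Δ : W.Δ = 343 := by
  simp [W, WeierstrassCurve.Δ, WeierstrassCurve.b₂, WeierstrassCurve.b₄, WeierstrassCurve.b₆,
    WeierstrassCurve.b₈]

lemma C_Δ : C.Δ = 1404928 := by
  simp only [C, WeierstrassCurve.Δ, WeierstrassCurve.b₂, WeierstrassCurve.b₄, WeierstrassCurve.b₆,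
    WeierstrassCurve.b₈]
  norm_num

lemma C_c4 : C.c₄ = 28560 := by
  simp only [C, WeierstrassCurve.c₄, WeierstrassCurve.b₂, WeierstrassCurve.b₄]
  norm_num

instance : C.IsElliptic := ⟨by rw [C_Δ]; exact (by norm_num : (1404928 : ℚ) ≠ 0).isUnit⟩

lemma C_j : C.j = 16581375 := by
  rw [WeierstrassCurve.j, Units.val_inv_eq_inv_val, WeierstrassCurve.coe_Δ', C_Δ, C_c4]
  norm_num

lemma good : IsGoodModel W C 2 := by
  refine ⟨⟨⟨⟨2, 1 / 2, by norm_num, by norm_num⟩, 13, 1, 0⟩, ?_⟩, ?_⟩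
  · rw [WeierstrassCurve.variableChange_def]
    simp only [C, W, WeierstrassCurve.map]
    ext <;> simp <;> norm_num
  · rw [W_Δ]; norm_num

lemma numAffine_W : numAffine W 2 = 1 := by
  have e : ∀ P : ZMod 2 × ZMod 2,
      (W.map (Int.castRingHom (ZMod 2))).toAffine.Equation P.1 P.2 ↔
      P.2 ^ 2 + P.1 * P.2 = P.1 ^ 3 + P.1 ^ 2 + P.1 := by
    intro P
    rw [WeierstrassCurve.Affine.equation_iff]
    simp only [WeierstrassCurve.toAffine, WeierstrassCurve.map, W]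
    have h2 : (Int.castRingHom (ZMod 2)) (-1) = 1 := by decide
    have h7 : (Int.castRingHom (ZMod 2)) (-37) = 1 := by decide
    have h8 : (Int.castRingHom (ZMod 2)) (-78) = 0 := by decide
    rw [h2, h7, h8, map_one, map_zero]
    constructor <;> intro h <;> linear_combination h
  rw [numAffine]
  have e2 : {P : ZMod 2 × ZMod 2 // (W.map (Int.castRingHom (ZMod 2))).toAffine.Equation P.1 P.2}
      ≃ {P : ZMod 2 × ZMod 2 // P.2 ^ 2 + P.1 * P.2 = P.1 ^ 3 + P.1 ^ 2 + P.1} :=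
    Equiv.subtypeEquivRight e
  rw [Nat.card_congr e2, Nat.card_eq_fintype_card]
  decide

lemma ap_W : ap W 2 = 1 := by
  rw [ap, numAffine_W]; norm_num

open Pool.Agent.V11306.CM in
lemma endo_of_good {K : Type*} [Field K] [DecidableEq K] {W : WeierstrassCurve.Affine K}
    (f : W.Point →+ W.Point) (hf : Good f) : IsEndo W f := by
  right
  obtain ⟨N₁, D₁, h1⟩ := hf.rx
  obtain ⟨N₂, D₂, h2⟩ := hf.ry
  refine ⟨N₁, D₁, N₂, D₂, ((hf.fin 0).union (h1.union h2)).subset ?_⟩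
  intro P hP
  by_contra hn
  apply hP
  rw [Set.mem_union, Set.mem_union, not_or, not_or, Set.mem_ofPred_eq, Set.mem_ofPred_eq,
    Set.mem_ofPred_eq, not_not, not_not] at hn
  obtain ⟨n0, ⟨x, y, h, e1, e2, e3⟩, ⟨x₁, y₁, h₁, e1', e2', e3'⟩⟩ := hn
  rw [e1] at e1'
  simp only [Affine.Point.some.injEq] at e1'
  obtain ⟨rfl, rfl⟩ := e1'
  obtain ⟨R, hR⟩ : ∃ R, f P = R := ⟨_, rfl⟩
  rcases R with _ | ⟨x', y', h'⟩
  · exact absurd hR n0
  · refine ⟨x, y, x', y', h, h', e1, hR, e2, e2', ?_, ?_⟩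
    · rw [← e3]; simp only [hR, xc]
    · rw [← e3']; simp only [hR, yc]

open Pool.Agent.V11306.CM in
lemma cm_of_eq {K : Type*} [Field K] [DecidableEq K] [CharZero K] [IsAlgClosed K]
    (W : WeierstrassCurve.Affine K) (hW : W = E (-42 : K) (-7)) :
    ∃ f : W.Point →+ W.Point, IsEndo W f ∧ ∀ n : ℤ, f ≠ n • AddMonoidHom.id W.Point := by
  subst hW
  obtain ⟨s, hs⟩ := IsAlgClosed.exists_pow_nat_eq (-7 : K) (n := 2) (by norm_num)
  obtain ⟨w, hw⟩ := IsAlgClosed.exists_pow_nat_eq (448 : K) (n := 2) (by norm_num)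
  obtain ⟨f, hf, hn⟩ := exists_end s (21 + w) hs (by linear_combination hw)
  exact ⟨f, endo_of_good f hf, hn⟩

lemma C_cm : HasCM C := by
  apply cm_of_eq
  simp only [C, Pool.Agent.V11306.CM.E, WeierstrassCurve.toAffine, WeierstrassCurve.map, map_zero,
    map_neg, map_ofNat]

lemma norm_two' : ‖(2 : ℤ_[2])‖ = 2⁻¹ := by
  have := PadicInt.norm_p (p := 2)
  exact_mod_cast this

lemma root : ∃ u : ℤ_[2], IsUnit u ∧ u ^ 2 - u + 2 = 0 := by
  have hF : (Polynomial.X ^ 2 - Polynomial.X + 2 : Polynomial ℤ_[2]).eval 1 = 2 := by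
    rw [Polynomial.eval_add, Polynomial.eval_sub, Polynomial.eval_pow, Polynomial.eval_X,
      Polynomial.eval_ofNat]
    ring
  have hF' : (Polynomial.derivative (Polynomial.X ^ 2 - Polynomial.X + 2 : Polynomial ℤ_[2])).eval 1
      = 1 := by
    rw [Polynomial.derivative_add, Polynomial.derivative_sub, Polynomial.derivative_X_pow,
      Polynomial.derivative_X, Polynomial.derivative_ofNat]
    simp only [Polynomial.eval_add, Polynomial.eval_sub, Polynomial.eval_mul, Polynomial.eval_C,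
      Polynomial.eval_pow, Polynomial.eval_X, Polynomial.eval_one, Polynomial.eval_zero]
    push_cast
    ring
  obtain ⟨z, hz, hz1, -, -⟩ := hensels_lemma (p := 2)
    (F := (Polynomial.X ^ 2 - Polynomial.X + 2 : Polynomial ℤ_[2])) (a := 1) (by
      simp only [Polynomial.coe_aeval_eq_eval]
      rw [hF, hF', norm_two', norm_one]
      norm_num)
  simp only [Polynomial.coe_aeval_eq_eval] at hz hz1
  rw [Polynomial.eval_add, Polynomial.eval_sub, Polynomial.eval_pow,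
    Polynomial.eval_X, Polynomial.eval_ofNat] at hz
  rw [hF', norm_one] at hz1
  refine ⟨z, ?_, hz⟩
  rw [PadicInt.isUnit_iff]
  have h1 : z = (z - 1) + 1 := by ring
  have h2 : ‖z - 1‖ ≠ ‖(1 : ℤ_[2])‖ := by rw [norm_one]; exact hz1.ne
  rw [h1, PadicInt.norm_add_eq_max_of_ne h2, norm_one, max_eq_right hz1.le]

lemma not_le (u : ℤ_[2]) (hu : u ^ 2 - u + 2 = 0) :
    ¬ ‖((16580871 : ℚ_[2]) - (u : ℚ_[2]) ^ 2 * 1)‖ ≤ ((2 : ℕ) : ℝ) ^ (-(3 : ℤ)) := by
  intro h
  have e : ((16580871 : ℚ_[2]) - (u : ℚ_[2]) ^ 2 * 1) =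
      (((16580871 : ℤ_[2]) - u ^ 2 : ℤ_[2]) : ℚ_[2]) := by
    rw [mul_one, PadicInt.coe_sub, PadicInt.coe_pow]
    rfl
  rw [e, PadicInt.norm_def.symm] at h
  have h3 := (PadicInt.norm_le_pow_iff_mem_span_pow ((16580871 : ℤ_[2]) - u ^ 2) 3).mp h
  rw [Ideal.mem_span_singleton] at h3
  obtain ⟨y, hy⟩ := h3
  have hu' : u = 16580873 - 8 * y := by
    linear_combination -hu - hy
  obtain ⟨w, hw⟩ : ∃ w : ℤ_[2], w = -34365666607657 + 2 * 16580873 * y - 8 * y ^ 2 - y := ⟨_, rfl⟩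
  have h4 : (2 : ℤ_[2]) = 2 ^ 3 * w := by
    rw [hu'] at hu
    rw [hw]
    linear_combination hu
  have h5 := congrArg (fun t : ℤ_[2] => ‖t‖) h4
  simp only [norm_mul, norm_pow, norm_two'] at h5
  have h6 := PadicInt.norm_le_one w
  norm_num at h5
  linarith

lemma norm_odd (m : ℤ) (h : ¬ ((2 : ℤ) ∣ m)) : ‖((m : ℚ) : ℚ_[2])‖ = 1 := by
  have h1 : ¬ ‖((m : ℤ) : ℚ_[2])‖ < 1 := by
    intro h4
    have h5 : ‖((m : ℤ) : ℤ_[2])‖ < 1 := by
      rw [PadicInt.norm_def]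
      exact_mod_cast h4
    rw [PadicInt.norm_int_lt_one_iff_dvd] at h5
    exact h (by exact_mod_cast h5)
  have h2 : ‖((m : ℤ) : ℚ_[2])‖ ≤ 1 := Padic.norm_int_le_one m
  have h3 : ((m : ℚ) : ℚ_[2]) = ((m : ℤ) : ℚ_[2]) := by push_cast; rfl
  rw [h3]
  exact le_antisymm h2 (not_lt.mp h1)

/-- **The congruence of Q2 fails** for `k = 4`, a curve `C` with complex multiplication and good
ordinary reduction at `p = 2`, and `n = l = 1`. -/
theorem result :
    ∃ (k : ℕ) (C : WeierstrassCurve ℚ) (_ : C.IsElliptic) (p : ℕ) (_ : Fact p.Prime)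
      (W : WeierstrassCurve ℤ) (u : ℤ_[p]) (n l : ℕ),
      (k = 4 ∨ k = 6 ∨ k = 8 ∨ k = 10 ∨ k = 14) ∧
      C.j ≠ 0 ∧ C.j ≠ 1728 ∧ HasCM C ∧ IsGoodModel W C p ∧ ¬ ((p : ℤ) ∣ ap W p) ∧
      ‖((C.j : ℚ) : ℚ_[p])‖ = 1 ∧ ‖((C.j - 1728 : ℚ) : ℚ_[p])‖ = 1 ∧
      IsUnit u ∧ u ^ 2 - (ap W p : ℤ_[p]) * u + (p : ℤ_[p]) = 0 ∧ 1 ≤ n ∧ 1 ≤ l ∧
      ¬ ‖(((F k C.j).coeff ((n * p ^ l : ℕ) : ℤ) : ℚ) : ℚ_[p]) - (u : ℚ_[p]) ^ (k - 2) *
          (((F k C.j).coeff ((n * p ^ (l - 1) : ℕ) : ℤ) : ℚ) : ℚ_[p])‖ ≤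
        (p : ℝ) ^ (-(((k - 1) * l : ℕ) : ℤ)) := by
  obtain ⟨u, hu1, hu2⟩ := root
  refine ⟨4, C, inferInstance, 2, ⟨Nat.prime_two⟩, W, u, 1, 1, Or.inl rfl, ?_, ?_, C_cm, good, ?_,
    ?_, ?_, hu1, ?_, le_refl _, le_refl _, ?_⟩
  · rw [C_j]; norm_num
  · rw [C_j]; norm_num
  · rw [ap_W]; norm_num
  · rw [C_j]
    exact_mod_cast norm_odd 16581375 (by norm_num)
  · rw [C_j]
    have : (16581375 - 1728 : ℚ) = ((16579647 : ℤ) : ℚ) := by norm_num
    rw [this]
    exact norm_odd 16579647 (by norm_num)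
  · rw [ap_W]; push_cast; linear_combination hu2
  · have h := not_le u hu2
    rw [C_j]
    have e1 : (((1 * 2 ^ 1 : ℕ) : ℤ)) = 2 := by norm_num
    have e2 : (((1 * 2 ^ (1 - 1) : ℕ) : ℤ)) = 1 := by norm_num
    rw [e1, e2, F_1, F_2]
    have e3 : (((4 - 1) * 1 : ℕ) : ℤ) = 3 := by norm_num
    rw [e3]
    convert h using 4
    · norm_num
    · norm_num

end Pool.Agent.Results.MP_f38b71_nt.CMFailsAtTwo
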